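import Mathlib

/-!
Project AS: a context-free language whose complement is infinite and abelian-square-free.

The morphism h on eight letters (the residues mod 8), h(a) = a, a+1, a+3, a+5, a, preserves
abelian-square-freeness.  On seventeen letters: the letters 0..7 have colour 0, the letters 8..15
have colour 1, the letter 16 is the separator; g is h with the colour switched.
-/

set_option autoImplicit false

namespace Pool.Agent.Y32.AS

/-- Abelian-square-free words. -/
def ASF {α : Type} (w : List α) : Prop :=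
  ∀ u x y v : List α, w = u ++ x ++ y ++ v → x ≠ [] → ¬ List.Perm x y

/-- The morphism on eight letters. -/
def h (a : Fin 8) : List (Fin 8) := [a, a + 1, a + 3, a + 5, a]

/-- Forget the colour. -/
def pr (a : Fin 17) : Fin 8 := ⟨a.val % 8, Nat.mod_lt _ (by norm_num)⟩

/-- One letter of the coloured morphism. -/
def gl (a : Fin 17) (r : ℕ) : Fin 17 :=
  if a.val < 8 then ⟨(a.val + r) % 8 + 8, by omega⟩ else ⟨(a.val + r) % 8, by omega⟩

/-- The coloured morphism: h with the colour switched. -/
def g (a : Fin 17) : List (Fin 17) := [gl a 0, gl a 1, gl a 3, gl a 5, gl a 0]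

/-- The iterates of h. -/
def wd : ℕ → List (Fin 8)
  | 0 => [0]
  | n + 1 => (wd n).flatMap h

/-- The coloured blocks. -/
def bl : ℕ → List (Fin 17)
  | 0 => [0]
  | n + 1 => (bl n).flatMap g

/-- The words of the complement: # bl 0 # bl 1 # ... # bl n #. -/
def rw : ℕ → List (Fin 17)
  | 0 => [16] ++ bl 0 ++ [16]
  | n + 1 => rw n ++ bl (n + 1) ++ [16]

/-- First kind of mismatch. -/
def Mis1 (z : List (Fin 17)) : Prop :=
  ∃ (α p : List (Fin 17)) (x : Fin 17) (q p' : List (Fin 17)) (y : Fin 17) (β : List (Fin 17))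
    (r : ℕ), z = α ++ [16] ++ p ++ [x] ++ q ++ [16] ++ p' ++ [y] ++ β ∧
    (∀ a ∈ p, a ≠ 16) ∧ x ≠ 16 ∧ (∀ a ∈ q, a ≠ 16) ∧
    r < 5 ∧ p'.length = 5 * p.length + r ∧ (g x)[r]? ≠ some y

/-- Second kind of mismatch. -/
def Mis2 (z : List (Fin 17)) : Prop :=
  ∃ (α p p' : List (Fin 17)) (y : Fin 17) (β : List (Fin 17)),
    z = α ++ [16] ++ p ++ [16] ++ p' ++ [y] ++ β ∧
    (∀ a ∈ p, a ≠ 16) ∧ p'.length = 5 * p.length ∧ y ≠ 16

/-- The context-free language. -/
def LL : Set (List (Fin 17)) :=
  {z | ¬ [16, 0, 16] <+: z} ∪ {z | ¬ [16] <:+ z} ∪ {z | Mis1 z} ∪ {z | Mis2 z}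

/-! Statements of the parts. -/

/-- The morphism theorem. -/
def S_MOR : Prop := ∀ w : List (Fin 8), ASF w → ASF (w.flatMap h)

/-- The language is context-free. -/
def S_CF : Prop := Language.IsContextFree (LL : Language (Fin 17))

/-- The words rw n are abelian-square-free if the iterates of h are. -/
def S_RASF : Prop := (∀ n, ASF (wd n)) → ∀ n, ASF (rw n)

/-- The words rw n are not in the language. -/
def S_RNOT : Prop := ∀ n, rw n ∉ LL

/-- All other words are in the language. -/
def S_ALL : Prop := ∀ z, z ∉ LL → ∃ n, z = rw n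

/-! Basic facts. -/

theorem pr_g : ∀ a : Fin 17, (g a).map pr = h (pr a) := by decide

theorem g_len (a : Fin 17) : (g a).length = 5 := rfl

theorem g_ne : ∀ a : Fin 17, ∀ b ∈ g a, b ≠ 16 := by decide

theorem g_col : ∀ a : Fin 17, a ≠ 16 → ∀ b ∈ g a, b.val / 8 = 1 - a.val / 8 := by decide

theorem bl_len (n : ℕ) : (bl n).length = 5 ^ n := by
  induction n with
  | zero => rfl
  | succ n ih =>
    rw [bl, List.length_flatMap]
    simp only [g_len]
    rw [List.map_const', List.sum_replicate, ih, pow_succ, smul_eq_mul]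

theorem bl_ne (n : ℕ) : ∀ a ∈ bl n, a ≠ 16 := by
  cases n with
  | zero => decide
  | succ n =>
    intro a ha
    rw [bl, List.mem_flatMap] at ha
    obtain ⟨b, _, hb⟩ := ha
    exact g_ne b a hb

theorem bl_col (n : ℕ) : ∀ a ∈ bl n, a.val / 8 = n % 2 := by
  induction n with
  | zero => decide
  | succ n ih =>
    intro a ha
    rw [bl, List.mem_flatMap] at ha
    obtain ⟨b, hb, hab⟩ := ha
    have h1 := g_col b (bl_ne n b hb) a hab
    have h2 := ih b hb
    omega

theorem bl_map (n : ℕ) : (bl n).map pr = wd n := by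
  induction n with
  | zero => rfl
  | succ n ih =>
    rw [bl, wd, ← ih, List.map_flatMap, List.flatMap_map]
    congr 1
    funext a
    exact pr_g a

end Pool.Agent.Y32.AS
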