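import Mathlib
import Pool.Agent.Y32.AS.Defs

set_option autoImplicit false

namespace Pool.Agent.Y32.AS

theorem asf_wd (hM : S_MOR) : ∀ n, ASF (wd n) := by
  intro n
  induction n with
  | zero =>
    intro u x y v e hx hp
    have h1 := congrArg List.length e
    have h2 := hp.length_eq
    have h3 : 0 < x.length := List.length_pos_iff.2 hx
    simp only [wd, List.length_append, List.length_cons, List.length_nil] at h1
    omega
  | succ n ih => exact hM _ ih

theorem rw_length_lt (n : ℕ) : (rw n).length < (rw (n + 1)).length := by
  rw [rw]; simp only [List.length_append, List.length_cons, List.length_nil]; omega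

theorem asm (hM : S_MOR) (hCF : S_CF) (hR : S_RASF) (hN : S_RNOT) (hA : S_ALL) :
    ∃ k : ℕ, ∃ L : Language (Fin k),
      Language.IsContextFree L ∧
      Set.Infinite {w : List (Fin k) | w ∉ L} ∧
      ∀ w : List (Fin k), w ∉ L →
        ∀ u x y v : List (Fin k), w = u ++ x ++ y ++ v → x ≠ [] → ¬ List.Perm x y := by
  refine ⟨17, LL, hCF, ?_, ?_⟩
  · have hinj : Function.Injective rw := by
      have : StrictMono (fun n => (rw n).length) := strictMono_nat_of_lt_succ rw_length_lt
      intro a b hab
      exact this.injective (congrArg List.length hab)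
    refine (Set.infinite_range_of_injective hinj).mono ?_
    rintro _ ⟨n, rfl⟩
    exact hN n
  · intro w hw
    obtain ⟨n, rfl⟩ := hA w hw
    exact hR (asf_wd hM) n

end Pool.Agent.Y32.AS
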