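import Mathlib
import Pool.Agent.Y32.AS.Defs

set_option autoImplicit false

namespace Pool.Agent.Y32.AS

def R : List ℤ := [20, 27, -12, 11, -20, 7, -22, 6]

def rho (c b : Fin 8) : ℤ := R.getD ((b.val + 8 - c.val) % 8) 0

def uu (c a : Fin 8) (j : ℕ) : ℤ := (((h a).take j).map (rho c)).sum

/-- The finite check. -/
def S_CHK : Prop := ∀ a0 a1 a2 : Fin 8, ∀ j0 j1 j2 : ℕ, j0 < 5 → j1 < 5 → j2 < 5 →
  (∀ c : Fin 8, (85 : ℤ) ∣ uu c a0 j0 + uu c a2 j2 - 2 * uu c a1 j1) →
  ∃ d0 d1 d2 : ℕ, d0 ≤ 1 ∧ d1 ≤ 1 ∧ d2 ≤ 1 ∧ (j0 = 0 → d0 = 0) ∧ (j1 = 0 → d1 = 0) ∧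
    (j2 = 0 → d2 = 0) ∧ ∀ c : Fin 8, uu c a0 j0 + uu c a2 j2 - 2 * uu c a1 j1 =
      85 * ((if c = a0 then (d0 : ℤ) else 0) + (if c = a2 then (d2 : ℤ) else 0)
        - 2 * (if c = a1 then (d1 : ℤ) else 0))

def S_CH1 : Prop := ∀ a : Fin 8, ASF (h a)

def S_CH2 : Prop := ∀ a b : Fin 8, a ≠ b → ASF (h a ++ h b)

theorem uh (c a : Fin 8) : ((h a).map (rho c)).sum = if c = a then 85 else 0 := by
  revert c a; decide

theorem factor_mid {α : Type} {A B C U Z V : List α} (e : A ++ B ++ C = U ++ Z ++ V)
    (h1 : A.length ≤ U.length) (h2 : (U ++ Z).length ≤ (A ++ B).length) :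
    ∃ U' V', B = U' ++ Z ++ V' := by
  have p1 : A <+: U := List.prefix_of_prefix_length_le (l₃ := A ++ B ++ C)
    ⟨B ++ C, by simp⟩ ⟨Z ++ V, by rw [e]; simp⟩ h1
  have p2 : (U ++ Z) <+: (A ++ B) := List.prefix_of_prefix_length_le (l₃ := A ++ B ++ C)
    ⟨V, by rw [e]⟩ ⟨C, rfl⟩ h2
  obtain ⟨U', rfl⟩ := p1
  obtain ⟨V', hV⟩ := p2
  refine ⟨U', V', ?_⟩
  have : A ++ (U' ++ Z ++ V') = A ++ B := by rw [← hV]; simp
  exact (List.append_cancel_left this).symm

theorem asf_of_factor {α : Type} {A B C : List α} (hw : ASF (A ++ B ++ C)) : ASF B := by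
  intro u x y v e hx
  refine hw (A ++ u) x y (v ++ C) ?_ hx
  rw [e]; simp

theorem sum_h (c : Fin 8) (w : List (Fin 8)) :
    ((w.flatMap h).map (rho c)).sum = 85 * (w.count c : ℤ) := by
  induction w with
  | nil => simp
  | cons a w ih =>
    rw [List.flatMap_cons, List.map_append, List.sum_append, ih, uh, List.count_cons]
    by_cases hc : c = a
    · subst hc; simp; ring
    · have : (a == c) = false := by simpa using fun h => hc h.symm
      simp [hc, this]

theorem len_h (w : List (Fin 8)) : (w.flatMap h).length = 5 * w.length := by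
  induction w with
  | nil => simp
  | cons a w ih => rw [List.flatMap_cons, List.length_append, ih]; simp [h]; ring

theorem take_h (w : List (Fin 8)) (n j : ℕ) (hn : n < w.length) (hj : j < 5) :
    (w.flatMap h).take (5 * n + j) = (w.take n).flatMap h ++ (h (w.getD n 0)).take j := by
  have e : w = w.take n ++ (w.getD n 0) :: w.drop (n + 1) := by
    rw [List.getD_eq_getElem _ _ hn]
    simp
  have e2 : w.flatMap h = (w.take n).flatMap h ++ (h (w.getD n 0) ++ (w.drop (n + 1)).flatMap h) := by
    conv_lhs => rw [e]
    rw [List.flatMap_append, List.flatMap_cons]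
  rw [e2, List.take_append, List.take_append]
  have l1 : ((w.take n).flatMap h).length = 5 * n := by
    rw [len_h, List.length_take, min_eq_left hn.le]
  rw [l1, List.take_of_length_le (by rw [l1]; omega)]
  have l2 : (h (w.getD n 0)).length = 5 := rfl
  rw [l2]
  have : 5 * n + j - 5 * n = j := by omega
  rw [this]
  have : j - 5 = 0 := by omega
  rw [this, List.take_zero, List.append_nil]

/-- Value of the functional at a cut. -/
theorem val (c : Fin 8) (w : List (Fin 8)) (p : ℕ) (hp : p ≤ 5 * w.length) :
    (((w.flatMap h).take p).map (rho c)).sum =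
      85 * ((w.take (p / 5)).count c : ℤ) + uu c (w.getD (p / 5) 0) (p % 5) := by
  rcases Nat.lt_or_ge (p / 5) w.length with h1 | h1
  · have := take_h w (p / 5) (p % 5) h1 (Nat.mod_lt _ (by norm_num))
    rw [show 5 * (p / 5) + p % 5 = p by omega] at this
    rw [this, List.map_append, List.sum_append, sum_h]
    rfl
  · have e : p = 5 * w.length := by omega
    have e1 : p / 5 = w.length := by omega
    have e2 : p % 5 = 0 := by omega
    rw [e1, e2, List.take_of_length_le (by rw [len_h]; omega), sum_h, List.take_length]
    simp [uu]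

theorem count_step (c : Fin 8) (w : List (Fin 8)) (n d : ℕ) (hd : d ≤ 1)
    (h1 : d = 0 ∨ n < w.length) :
    ((w.take (n + d)).count c : ℤ) = (w.take n).count c +
      (if c = w.getD n 0 then (d : ℤ) else 0) := by
  rcases Nat.eq_zero_or_pos d with rfl | hd'
  · simp
  · have hd1 : d = 1 := by omega
    subst hd1
    have hn : n < w.length := by omega
    rw [List.take_add, List.count_append]
    rw [List.getD_eq_getElem _ _ hn]
    have : (w.drop n).take 1 = [w[n]] := by
      rw [List.drop_eq_getElem_cons hn, List.take_succ_cons, List.take_zero]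
    rw [this, List.count_singleton]
    by_cases hc : c = w[n]
    · simp [hc]
    · have : (w[n] == c) = false := by simpa using fun h => hc h.symm
      simp [hc, this]

theorem len_count (l : List (Fin 8)) : (l.length : ℤ) = ∑ c : Fin 8, (l.count c : ℤ) := by
  induction l with
  | nil => simp
  | cons a l ih =>
    simp only [List.length_cons, List.count_cons]
    push_cast
    rw [Finset.sum_add_distrib, ← ih]
    congr 1
    rw [Finset.sum_eq_single a]
    · simp
    · intro b _ hb
      have : (a == b) = false := by simpa using fun h => hb h.symm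
      simp [this]
    · simp

theorem t_MOR (hchk : S_CHK) (ch1 : S_CH1) (ch2 : S_CH2) : S_MOR := by
  intro w hw U X Y V e hX hper
  have hlen : X.length = Y.length := hper.length_eq
  have hXpos : 0 < X.length := List.length_pos_iff.2 hX
  have hL : 5 * w.length = U.length + X.length + Y.length + V.length := by
    rw [← len_h, e]; simp [add_assoc]
  set p0 := U.length with hp0
  set p1 := U.length + X.length with hp1
  set p2 := U.length + X.length + Y.length with hp2
  -- the values of the functionals
  have key : ∀ c, (((w.flatMap h).take p0).map (rho c)).sum + (((w.flatMap h).take p2).map (rho c)).sum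
      = 2 * (((w.flatMap h).take p1).map (rho c)).sum := by
    intro c
    have t0 : (w.flatMap h).take p0 = U := by
      rw [e, List.append_assoc, List.append_assoc, hp0, List.take_left]
    have t1 : (w.flatMap h).take p1 = U ++ X := by
      rw [e, List.append_assoc, hp1, ← List.length_append, List.take_left]
    have t2 : (w.flatMap h).take p2 = U ++ X ++ Y := by
      rw [e, hp2, ← List.length_append, ← List.length_append, List.take_left]
    rw [t0, t1, t2]
    simp only [List.map_append, List.sum_append]
    have : (X.map (rho c)).sum = (Y.map (rho c)).sum := (hper.map _).sum_eq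
    rw [this]; ring
  set n0 := p0 / 5 with hn0
  set n1 := p1 / 5 with hn1
  set n2 := p2 / 5 with hn2
  have v0 := fun c => val c w p0 (by omega)
  have v1 := fun c => val c w p1 (by omega)
  have v2 := fun c => val c w p2 (by omega)
  have key2 : ∀ c, uu c (w.getD n0 0) (p0 % 5) + uu c (w.getD n2 0) (p2 % 5)
      - 2 * uu c (w.getD n1 0) (p1 % 5) = 85 * (2 * ((w.take n1).count c : ℤ)
        - (w.take n0).count c - (w.take n2).count c) := by
    intro c
    have := key c
    rw [v0, v1, v2] at this
    linarith
  obtain ⟨d0, d1, d2, hd0, hd1, hd2, z0, z1, z2, hd⟩ :=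
    hchk (w.getD n0 0) (w.getD n1 0) (w.getD n2 0) (p0 % 5) (p1 % 5) (p2 % 5)
      (Nat.mod_lt _ (by norm_num)) (Nat.mod_lt _ (by norm_num)) (Nat.mod_lt _ (by norm_num))
      (fun c => ⟨_, key2 c⟩)
  have b0 : d0 = 0 ∨ n0 < w.length := by
    by_cases hh : p0 % 5 = 0
    · exact Or.inl (z0 hh)
    · right; omega
  have b1 : d1 = 0 ∨ n1 < w.length := by
    by_cases hh : p1 % 5 = 0
    · exact Or.inl (z1 hh)
    · right; omega
  have b2 : d2 = 0 ∨ n2 < w.length := by
    by_cases hh : p2 % 5 = 0
    · exact Or.inl (z2 hh)
    · right; omega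
  have hcount : ∀ c, ((w.take (n0 + d0)).count c : ℤ) + (w.take (n2 + d2)).count c
      = 2 * (w.take (n1 + d1)).count c := by
    intro c
    rw [count_step c w n0 d0 hd0 b0, count_step c w n1 d1 hd1 b1, count_step c w n2 d2 hd2 b2]
    have := hd c
    rw [key2 c] at this
    linarith
  have hm : (n0 + d0) + (n2 + d2) = 2 * (n1 + d1) := by
    have : ((w.take (n0 + d0)).length : ℤ) + (w.take (n2 + d2)).length
        = 2 * (w.take (n1 + d1)).length := by
      rw [len_count, len_count, len_count, ← Finset.sum_add_distrib, Finset.mul_sum]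
      exact Finset.sum_congr rfl fun c _ => hcount c
    rw [List.length_take, List.length_take, List.length_take, min_eq_left (by omega),
      min_eq_left (by omega), min_eq_left (by omega)] at this
    exact_mod_cast this
  rcases Nat.lt_or_ge (n0 + d0) (n2 + d2) with hlt | hge
  · -- an abelian square in w
    have l1 : n0 + d0 < n1 + d1 := by omega
    have l2 : n1 + d1 < n2 + d2 := by omega
    refine hw (w.take (n0 + d0)) ((w.drop (n0 + d0)).take (n1 + d1 - (n0 + d0)))
      ((w.drop (n1 + d1)).take (n2 + d2 - (n1 + d1))) (w.drop (n2 + d2)) ?_ ?_ ?_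
    · rw [← List.take_add, show n0 + d0 + (n1 + d1 - (n0 + d0)) = n1 + d1 by omega,
        ← List.take_add, show n1 + d1 + (n2 + d2 - (n1 + d1)) = n2 + d2 by omega,
        List.take_append_drop]
    · intro h0
      have := congrArg List.length h0
      simp only [List.length_take, List.length_drop, List.length_nil] at this
      omega
    · rw [List.perm_iff_count]
      intro c
      have e1 : w.take (n1 + d1) = w.take (n0 + d0) ++
          (w.drop (n0 + d0)).take (n1 + d1 - (n0 + d0)) := by
        rw [← List.take_add, show n0 + d0 + (n1 + d1 - (n0 + d0)) = n1 + d1 by omega]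
      have e2 : w.take (n2 + d2) = w.take (n1 + d1) ++
          (w.drop (n1 + d1)).take (n2 + d2 - (n1 + d1)) := by
        rw [← List.take_add, show n1 + d1 + (n2 + d2 - (n1 + d1)) = n2 + d2 by omega]
      have := hcount c
      have f1 := congrArg (List.count c) e1
      have f2 := congrArg (List.count c) e2
      rw [List.count_append] at f1 f2
      omega
  · -- everything inside the image of at most two letters
    have hn02 : n2 ≤ n0 + 1 := by omega
    have hn0w : n0 < w.length := by omega
    have ew : w = w.take n0 ++ (w.drop n0).take 2 ++ w.drop (n0 + 2) := by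
      rw [← List.take_add, List.take_append_drop]
    have ef : (w.take n0).flatMap h ++ ((w.drop n0).take 2).flatMap h ++ (w.drop (n0 + 2)).flatMap h
        = U ++ (X ++ Y) ++ V := by
      rw [← List.flatMap_append, ← List.flatMap_append, ← ew, e]; simp
    obtain ⟨U', V', hB⟩ := factor_mid ef
      (by rw [len_h, List.length_take, min_eq_left hn0w.le]; omega)
      (by
        simp only [List.length_append, len_h, List.length_take, List.length_drop]
        omega)
    have hB' : ASF (((w.drop n0).take 2).flatMap h) := by
      have hfac : ASF ((w.drop n0).take 2) := by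
        apply asf_of_factor (A := w.take n0) (C := w.drop (n0 + 2))
        rw [← ew]; exact hw
      have hl : ((w.drop n0).take 2).length = 1 ∨ ((w.drop n0).take 2).length = 2 := by
        simp only [List.length_take, List.length_drop]; omega
      rcases hl with hl | hl
      · obtain ⟨a, ha⟩ := List.length_eq_one_iff.1 hl
        rw [ha]; simpa using ch1 a
      · obtain ⟨a, b, hab⟩ := List.length_eq_two.1 hl
        rw [hab]
        have hne : a ≠ b := by
          rintro rfl
          rw [hab] at hfac
          exact hfac [] [a] [a] [] (by simp) (by simp) (List.Perm.refl _)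
        simpa using ch2 a b hne
    exact hB' U' X Y V' (by rw [hB]; simp) hX hper

end Pool.Agent.Y32.AS
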