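import Mathlib
import Pool.Agent.Y32.AS.Defs
import Pool.Agent.Y32.AS.Mor
import Pool.Agent.Y32.AS.Asm
import Pool.Agent.Y469.AS.CFL
import Pool.Agent.Y592.AS.Words
import Pool.Agent.Y151.AS.Chk

set_option autoImplicit false

namespace Pool.Agent.Y32.AS

theorem uu_eq (c a : Fin 8) (j : ℕ) : uu c a j = Pool.Agent.Y151.AS.u c a j := rfl

theorem chk : S_CHK := by
  intro a0 a1 a2 j0 j1 j2 h0 h1 h2 hc
  exact Pool.Agent.Y151.AS.t_CHK a0 a1 a2 j0 h0 j1 h1 j2 h2 hc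

theorem mor : S_MOR := t_MOR chk Pool.Agent.Y151.AS.t_CH1 Pool.Agent.Y151.AS.t_CH2

theorem main :
    ∃ k : ℕ, ∃ L : Language (Fin k),
      Language.IsContextFree L ∧
      Set.Infinite {w : List (Fin k) | w ∉ L} ∧
      ∀ w : List (Fin k), w ∉ L →
        ∀ u x y v : List (Fin k), w = u ++ x ++ y ++ v → x ≠ [] → ¬ List.Perm x y :=
  asm mor Pool.Agent.Y469.AS.t_CF Pool.Agent.Y592.AS.t_RASF Pool.Agent.Y592.AS.t_RNOT
    Pool.Agent.Y592.AS.t_ALL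

end Pool.Agent.Y32.AS
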